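import Pool.Agent.Lib.helper21.NA1

set_option maxHeartbeats 400000

open Set Filter Topology
open scoped ENNReal

namespace Pool.Agent.Results.MP_5ffaeb_an.Q2

/-- norm-attaining operators -/
def NA (X Y : Type) [NormedAddCommGroup X] [NormedSpace ℝ X] [NormedAddCommGroup Y]
    [NormedSpace ℝ Y] : Set (X →L[ℝ] Y) := {T | ∃ x : X, ‖x‖ = 1 ∧ ‖T x‖ = ‖T‖}

open Pool.Agent.Lib.Helper21.NA1

lemma anti {A B : Type} [NormedAddCommGroup A] [NormedSpace ℝ A] [CompleteSpace A]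
    [NormedAddCommGroup B] [NormedSpace ℝ B] (f : A →L[ℝ] B) (h : ∀ a, ‖a‖ ≤ 4 * ‖f a‖) :
    Function.Injective f ∧ IsClosed (range f) := by
  have : AntilipschitzWith 4 f := f.antilipschitz_of_bound (K := 4) (by exact_mod_cast h)
  exact ⟨this.injective, this.isClosed_range f.uniformContinuous⟩

def X : Type := J.range

noncomputable instance : NormedAddCommGroup X := inferInstanceAs (NormedAddCommGroup J.range)
noncomputable instance : NormedSpace ℝ X := inferInstanceAs (NormedSpace ℝ J.range)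

instance : CompleteSpace X := (anti J J_lower).2.completeSpace_coe

noncomputable def eX : W ≃L[ℝ] X := J.equivRange (anti J J_lower).1 (anti J J_lower).2

lemma nX (w : W) : ‖eX w‖ = ‖J w‖ := rfl

lemma nX_le (w : W) : ‖eX w‖ ≤ ‖w‖ := J_le (norm_nonneg _) fun φ => phi_le φ w

lemma p_norm (i : ℕ × ℕ) : ‖eX (p i)‖ = 1 := by
  apply le_antisymm (J_le zero_le_one fun φ => φ.2 i)
  have := le_J ⟨q i, q_le i⟩ (p i)
  simp only [q_self, abs_one] at this
  exact this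

section dense
variable {Y : Type} [NormedAddCommGroup Y] [NormedSpace ℝ Y]

lemma op_le (T : X →L[ℝ] Y) {M : ℝ} (hM : 0 < M) (h : ∀ i, ‖T (eX (p i))‖ ≤ M) : ‖T‖ ≤ M := by
  refine T.opNorm_le_bound hM.le fun v => ?_
  obtain ⟨w, rfl⟩ := eX.surjective v
  obtain ⟨g, hg, hw⟩ := exists_dual_vector'' ℝ (T (eX w))
  have := le_J ⟨M⁻¹ • (g.comp (T.comp (eX : W →L[ℝ] X))), fun i => by
    change |M⁻¹ * g (T (eX (p i)))| ≤ 1
    have h1 := g.le_opNorm (T (eX (p i)))
    have h3 : ‖g‖ * ‖T (eX (p i))‖ ≤ 1 * M := by gcongr; exact h i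
    rw [Real.norm_eq_abs] at h1
    rw [abs_mul, abs_of_pos (inv_pos.2 hM), inv_mul_le_iff₀ hM]
    linarith⟩ w
  change |M⁻¹ * g (T (eX w))| ≤ ‖eX w‖ at this
  rw [hw] at this
  have h2 := (le_abs_self _).trans this
  rwa [inv_mul_le_iff₀ hM] at h2

lemma dense_NA : Dense (NA X Y) := by
  intro T
  by_cases hT : T = 0
  · exact subset_closure ⟨eX (p (0, 0)), p_norm _, by simp [hT]⟩
  have hM : 0 < ‖T‖ := norm_pos_iff.2 hT
  rw [Metric.mem_closure_iff]
  intro δ hδ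
  set ε := δ / (2 * ‖T‖) with hε
  have hε0 : 0 < ε := by positivity
  obtain ⟨i, hi⟩ : ∃ i, ‖T‖ * (1 + ε / 2) / (1 + ε) < ‖T (eX (p i))‖ := by
    by_contra hc
    simp only [not_exists, not_lt] at hc
    have := op_le T (by positivity) hc
    rw [le_div_iff₀ (by positivity)] at this
    nlinarith
  set y := T (eX (p i)) with hy
  have hyT : ‖y‖ ≤ ‖T‖ := by simpa [p_norm] using T.le_opNorm (eX (p i))
  set L : X →L[ℝ] Y := ((q i).comp (eX.symm : X →L[ℝ] W)).smulRight (ε • y) with hL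
  have hLa : ∀ w, L (eX w) = q i w • ε • y := fun w => by simp [hL]
  have hS : ‖(T + L) (eX (p i))‖ = (1 + ε) * ‖y‖ := by
    rw [add_apply, hLa, q_self, one_smul, ← hy]
    have : y + ε • y = (1 + ε) • y := by module
    rw [this, norm_smul, Real.norm_of_nonneg (by positivity)]
  rw [div_lt_iff₀ (by positivity)] at hi
  have hle : ‖T + L‖ ≤ (1 + ε) * ‖y‖ := by
    refine op_le _ (by nlinarith) fun j => ?_
    by_cases h : j = i
    · rw [h, hS]
    · rw [add_apply, hLa]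
      have h1 : ‖T (eX (p j))‖ ≤ ‖T‖ := by simpa [p_norm] using T.le_opNorm (eX (p j))
      have h2 : ‖q i (p j) • ε • y‖ ≤ 1 / 2 * (ε * ‖T‖) := by
        rw [norm_smul, norm_smul, Real.norm_of_nonneg hε0.le, Real.norm_eq_abs]
        have := q_ne h
        gcongr
      refine (norm_add_le _ _).trans ?_
      nlinarith
  refine ⟨T + L, ⟨eX (p i), p_norm i, le_antisymm ?_ (by rw [hS]; exact hle)⟩, ?_⟩
  · simpa [p_norm] using (T + L).le_opNorm (eX (p i))
  · rw [dist_comm, dist_eq_norm, add_sub_cancel_left]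
    have : ‖L‖ ≤ ε * ‖T‖ := by
      refine op_le _ (by positivity) fun j => ?_
      rw [hLa, norm_smul, norm_smul, Real.norm_of_nonneg hε0.le, Real.norm_eq_abs]
      have := q_le i j
      calc _ ≤ 1 * (ε * ‖T‖) := by gcongr
        _ = _ := one_mul _
    have h2 : ε * ‖T‖ = δ / 2 := by rw [hε]; field_simp
    linarith

end dense

abbrev L2 : Type := lp (fun _ : ℕ => ℝ) 2

lemma bd (x : C0) (s : Finset ℕ) :
    ∑ i ∈ s, ‖(1 / 2 : ℝ) ^ i * x i‖ ^ (2 : ℝ≥0∞).toReal ≤ (2 * ‖x‖) ^ (2 : ℝ≥0∞).toReal := by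
  simp only [ENNReal.toReal_ofNat, Real.rpow_ofNat]
  have h1 : ∀ i ∈ s, ‖(1 / 2 : ℝ) ^ i * x i‖ ^ 2 ≤ (1 / 2 : ℝ) ^ i * ‖x‖ ^ 2 := fun i _ => by
    rw [norm_mul, mul_pow, Real.norm_of_nonneg (by positivity), Real.norm_eq_abs]
    have a1 : ((1 / 2 : ℝ) ^ i) ^ 2 ≤ (1 / 2 : ℝ) ^ i := by
      have : (1 / 2 : ℝ) ^ i ≤ 1 := pow_le_one₀ (by norm_num) (by norm_num)
      have : (0:ℝ) ≤ (1 / 2 : ℝ) ^ i := by positivity
      nlinarith
    have a2 := abs_le x i
    gcongr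
  refine (Finset.sum_le_sum h1).trans ?_
  rw [← Finset.sum_mul]
  have := summable_geometric_two.sum_le_tsum s (fun i _ => by positivity)
  rw [tsum_geometric_two] at this
  nlinarith [sq_nonneg ‖x‖]

noncomputable def D : C0 →L[ℝ] L2 :=
  LinearMap.mkContinuous
    ⟨⟨fun x => ⟨fun i => (1 / 2 : ℝ) ^ i * x i, memℓp_gen' (bd x)⟩,
      fun x y => by ext i; exact mul_add _ _ _⟩,
      fun c x => by ext i; exact mul_left_comm _ _ _⟩ 2
    fun x => lp.norm_le_of_forall_sum_le (by simp) (by positivity) (bd x)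

noncomputable def j : C0 →L[ℝ] WithLp 2 (C0 × L2) :=
  ((WithLp.prodContinuousLinearEquiv 2 ℝ C0 L2).symm : C0 × L2 →L[ℝ] _).comp
    ((ContinuousLinearMap.id ℝ C0).prod D)

lemma j_sq (x : C0) : ‖j x‖ ^ 2 = ‖x‖ ^ 2 + ‖D x‖ ^ 2 := WithLp.prod_norm_sq_eq_of_L2 _

lemma j_ge (x : C0) : ‖x‖ ≤ ‖j x‖ :=
  (abs_le_of_sq_le_sq' (by rw [j_sq]; nlinarith [sq_nonneg ‖D x‖]) (norm_nonneg _)).2

lemma j_lower (x : C0) : ‖x‖ ≤ 4 * ‖j x‖ := by linarith [j_ge x, norm_nonneg (j x)]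

def Y : Type := j.range

noncomputable instance : NormedAddCommGroup Y := inferInstanceAs (NormedAddCommGroup j.range)
noncomputable instance : NormedSpace ℝ Y := inferInstanceAs (NormedSpace ℝ j.range)

instance : CompleteSpace Y := (anti j j_lower).2.completeSpace_coe

noncomputable def eY : C0 ≃L[ℝ] Y := j.equivRange (anti j j_lower).1 (anti j j_lower).2

lemma strict {y h : Y} (h1 : ‖y + h‖ ≤ ‖y‖) (h2 : ‖y - h‖ ≤ ‖y‖) : h = 0 := by
  obtain ⟨a, rfl⟩ := eY.surjective y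
  obtain ⟨b, rfl⟩ := eY.surjective h
  rw [← map_add] at h1
  rw [← map_sub] at h2
  change ‖j (a + b)‖ ≤ ‖j a‖ at h1
  change ‖j (a - b)‖ ≤ ‖j a‖ at h2
  have s1 := pow_le_pow_left₀ (norm_nonneg _) h1 2
  have s2 := pow_le_pow_left₀ (norm_nonneg _) h2 2
  rw [j_sq, j_sq, map_add] at s1
  rw [j_sq, j_sq, map_sub] at s2
  have s3 := parallelogram_law_with_norm ℝ (D a) (D b)
  have s4 : 2 * ‖a‖ ≤ ‖a + b‖ + ‖a - b‖ := by
    have : (2:ℝ) • a = (a + b) + (a - b) := by module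
    have h5 := norm_add_le (a + b) (a - b)
    rw [← this, norm_smul] at h5
    simpa using h5
  have s5 : ‖D b‖ ^ 2 ≤ 0 := by
    nlinarith [sq_nonneg (‖a + b‖ - ‖a - b‖), norm_nonneg a, norm_nonneg (a + b),
      norm_nonneg (a - b)]
  have s6 : D b = 0 := by
    rw [← norm_eq_zero]
    exact pow_eq_zero_iff (two_ne_zero) |>.1 (le_antisymm s5 (sq_nonneg _))
  have s7 : b = 0 := by
    ext i
    have : (1 / 2 : ℝ) ^ i * b i = 0 := congrArg (fun z : L2 => z i) s6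
    exact (mul_eq_zero.1 this).resolve_left (by positivity)
  rw [s7, map_zero]

noncomputable def P : X →L[ℝ] X :=
  (eX : W →L[ℝ] X).comp (((ContinuousLinearMap.inl ℝ C0 C0).comp
    (ContinuousLinearMap.fst ℝ C0 C0)).comp (eX.symm : X →L[ℝ] W))

lemma P_apply (w : W) : P (eX w) = eX (w.1, 0) := by simp [P]

lemma n0 (x : C0) : ‖eX (x, 0)‖ = ‖x‖ :=
  le_antisymm ((nX_le _).trans (by simp [Prod.norm_def])) (J_fst (x, 0))

noncomputable def io : C0 →L[ℝ] P.range :=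
  P.rangeRestrict.comp ((eX : W →L[ℝ] X).comp (ContinuousLinearMap.inl ℝ C0 C0))

lemma io_val (x : C0) : (io x).1 = eX (x, 0) := P_apply (x, 0)

lemma io_norm (x : C0) : ‖io x‖ = ‖x‖ := by
  rw [← n0, ← io_val]; rfl

lemma io_surj (v : P.range) : ∃ x, v = io x := by
  obtain ⟨_, u, rfl⟩ := v
  obtain ⟨w, rfl⟩ := eX.surjective u
  exact ⟨w.1, Subtype.ext (by rw [io_val]; exact P_apply w)⟩

noncomputable def T0 : P.range →L[ℝ] Y :=
  (eY : C0 →L[ℝ] Y).comp ((ContinuousLinearMap.fst ℝ C0 C0).comp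
    ((eX.symm : X →L[ℝ] W).comp P.range.subtypeL))

lemma T0_io (x : C0) : T0 (io x) = eY x := by
  change eY (eX.symm (io x).1).1 = _
  rw [io_val]; simp

lemma not_dense {V : Type} [NormedAddCommGroup V] [NormedSpace ℝ V] (io : C0 →L[ℝ] V)
    (io_norm : ∀ x, ‖io x‖ = ‖x‖) (io_surj : ∀ v, ∃ x, v = io x) (T0 : V →L[ℝ] Y)
    (T0_io : ∀ x, T0 (io x) = eY x) : ¬ Dense (NA V Y) := by
  intro h
  obtain ⟨T, ⟨v, hv, hT⟩, hd⟩ := Metric.mem_closure_iff.1 (h T0) 1 one_pos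
  obtain ⟨x, rfl⟩ := io_surj v
  rw [io_norm] at hv
  obtain ⟨N, hN⟩ := small x (by norm_num : (0:ℝ) < 1 / 2)
  have hb : ∀ c : ℝ, |c| ≤ 1 / 2 → ‖T (io (x + c • e N))‖ ≤ ‖T (io x)‖ := fun c hc => by
    have : ‖x + c • e N‖ ≤ 1 := norm_le zero_le_one fun k => by
      change |x k + c * e N k| ≤ 1
      rw [e_apply]
      split_ifs with hk
      · have := hN k hk.ge
        refine (abs_add_le _ _).trans ?_
        rw [mul_one]; linarith
      · simpa [hv] using abs_le x k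
    rw [hT]
    refine (T.le_opNorm _).trans (mul_le_of_le_one_right (norm_nonneg _) ?_)
    rwa [io_norm]
  have h1 := hb (1 / 2) (by rw [abs_of_pos] <;> norm_num)
  have h2 := hb (-(1 / 2)) (by rw [abs_neg, abs_of_pos] <;> norm_num)
  rw [map_add, map_add, map_smul, map_smul] at h1
  rw [map_add, map_add, map_smul, map_smul, neg_smul, ← sub_eq_add_neg] at h2
  have h3 : T (io (e N)) = 0 := (smul_eq_zero.1 (strict h1 h2)).resolve_left (by norm_num)
  have h4 := (T0 - T).le_opNorm (io (e N))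
  rw [sub_apply, h3, sub_zero, T0_io, io_norm] at h4
  have h5 : 1 ≤ ‖e N‖ := by simpa [e_apply] using abs_le (e N) N
  have h6 : ‖e N‖ ≤ ‖eY (e N)‖ := j_ge _
  rw [dist_eq_norm] at hd
  nlinarith

theorem result :
    ∃ (X : Type) (_ : NormedAddCommGroup X) (_ : NormedSpace ℝ X) (_ : CompleteSpace X)
      (Y : Type) (_ : NormedAddCommGroup Y) (_ : NormedSpace ℝ Y) (_ : CompleteSpace Y)
      (X₁ : Submodule ℝ X), IsClosed (X₁ : Set X) ∧
      (∃ P : X →L[ℝ] X, (∀ x, P (P x) = P x) ∧ range P = (X₁ : Set X) ∧ ‖P‖ ≤ 1) ∧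
      Dense (NA X Y) ∧ ¬ Dense (NA X₁ Y) ∧
      ∀ (Z : Type) [NormedAddCommGroup Z] [NormedSpace ℝ Z], Dense (NA X Z) := by
  have hP : ∀ x, P (P x) = P x := fun x => by
    obtain ⟨w, rfl⟩ := eX.surjective x
    rw [P_apply, P_apply]
  refine ⟨X, inferInstance, inferInstance, inferInstance, Y, inferInstance, inferInstance,
    inferInstance, P.range, ?_, ⟨P, hP, rfl, ?_⟩, dense_NA,
    not_dense io io_norm io_surj T0 T0_io, fun _ _ _ => dense_NA⟩
  · have : (P.range : Set X) = {x | P x = x} := by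
      ext x
      constructor
      · rintro ⟨u, rfl⟩; exact hP u
      · intro hx; exact ⟨x, hx⟩
    rw [this]
    exact isClosed_eq P.continuous continuous_id
  · refine P.opNorm_le_bound zero_le_one fun x => ?_
    obtain ⟨w, rfl⟩ := eX.surjective x
    rw [P_apply, n0, one_mul]
    exact J_fst w

end Pool.Agent.Results.MP_5ffaeb_an.Q2
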